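import Pool.Agent.Helper37.DG.Stmts
import Pool.Agent.Helper38.SO.Bon

set_option autoImplicit false

/-! Module SV1. -/

namespace Pool.Agent.Helper37.DG

open Finset
open scoped Classical
open Pool.Agent.Helper17.SO (bonA bonE bonA_eq bon_main)

theorem sv1_al_empty (b : ℕ) : ∑ T ∈ (∅ : Finset ℕ).powerset, al b T = 1 := by
  simp [al]

theorem sv1_be_empty (b : ℕ) : ∑ T ∈ (∅ : Finset ℕ).powerset, be b T = 0 := by
  simp [be]

theorem sv1_al_eq (b : ℕ) (X : Finset ℕ) :
    ∑ T ∈ X.powerset, al b T = bonA (fun _ => 1) X (2 * b) := by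
  rw [← bonA_eq, Finset.sum_filter]
  refine Finset.sum_congr rfl fun T _ => ?_
  unfold al
  simp

theorem sv1_be_eq (b : ℕ) (X : Finset ℕ) :
    ∑ T ∈ X.powerset, be b T = bonE (fun _ => 1) X (2 * b + 1) := by
  unfold bonE be
  rw [← Finset.sum_filter]
  refine Finset.sum_congr ?_ fun T _ => by simp
  ext T
  simp [Finset.mem_powersetCard]

theorem sv1_be_nonneg (b : ℕ) (X : Finset ℕ) : 0 ≤ ∑ T ∈ X.powerset, be b T := by
  refine Finset.sum_nonneg fun T _ => ?_
  unfold be
  split_ifs <;> norm_num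

theorem sv1_block (b : ℕ) (X : Finset ℕ) (hX : X.Nonempty) :
    0 ≤ ∑ T ∈ X.powerset, al b T ∧ ∑ T ∈ X.powerset, al b T ≤ ∑ T ∈ X.powerset, be b T := by
  have h := bon_main (fun _ => 1) X (fun _ _ => ⟨by norm_num, by norm_num⟩) (2 * b)
  have h0 : ∏ l ∈ X, (1 - (fun _ : ℕ => (1 : ℝ)) l) = 0 := by
    obtain ⟨x, hx⟩ := hX
    exact Finset.prod_eq_zero hx (by norm_num)
  rw [h0] at h
  have h1 : (-1 : ℝ) ^ (2 * b) = 1 := by
    rw [pow_mul]; norm_num
  rw [h1] at h
  rw [sv1_al_eq, sv1_be_eq]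
  constructor
  · linarith [h.1]
  · linarith [h.2]

theorem sv1_al_nonneg (b : ℕ) (X : Finset ℕ) : 0 ≤ ∑ T ∈ X.powerset, al b T := by
  by_cases hX : X.Nonempty
  · exact (sv1_block b X hX).1
  · rw [Finset.not_nonempty_iff_eq_empty.1 hX, sv1_al_empty]
    norm_num

theorem sv1_pf (hPF : ST_PF) (K : ℕ) (B : ℕ → Finset ℕ) (hB : Dsj K B) (W : Finset ℕ)
    (hW : W ⊆ un K B) (f : ℕ → Finset ℕ → ℝ) :
    ∑ T ∈ W.powerset, ∏ m ∈ Finset.range K, f m (T ∩ B m) =
    ∏ m ∈ Finset.range K, ∑ T ∈ (W ∩ B m).powerset, f m T := by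
  have h1 : un K (fun m => W ∩ B m) = W := by
    unfold un
    ext x
    simp only [Finset.mem_biUnion, Finset.mem_inter, Finset.mem_range]
    constructor
    · rintro ⟨m, _, h, _⟩
      exact h
    · intro hx
      have := hW hx
      unfold un at this
      simp only [Finset.mem_biUnion, Finset.mem_range] at this
      obtain ⟨m, hm, hx'⟩ := this
      exact ⟨m, hm, hx, hx'⟩
  have h2 : Dsj K (fun m => W ∩ B m) := by
    intro m hm m' hm' hne
    exact Finset.disjoint_of_subset_left Finset.inter_subset_right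
      (Finset.disjoint_of_subset_right Finset.inter_subset_right (hB m hm m' hm' hne))
  have h3 := hPF K (fun m => W ∩ B m) f h2
  rw [h1] at h3
  rw [← h3]
  refine Finset.sum_congr rfl fun T hT => ?_
  refine Finset.prod_congr rfl fun m _ => ?_
  have hT' := Finset.mem_powerset.1 hT
  congr 1
  ext x
  simp only [Finset.mem_inter]
  constructor
  · rintro ⟨h, h'⟩
    exact ⟨h, hT' h, h'⟩
  · rintro ⟨h, _, h'⟩
    exact ⟨h, h'⟩

theorem sv1_sum (hPF : ST_PF) (K : ℕ) (B : ℕ → Finset ℕ) (β : ℕ) (hB : Dsj K B) (W : Finset ℕ)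
    (hW : W ⊆ un K B) :
    ∑ T ∈ W.powerset, Lam K B β T =
    ∏ m ∈ Finset.range K, ∑ T ∈ (W ∩ B m).powerset, al (β + m) T -
    ∑ m ∈ Finset.range K, (∑ T ∈ (W ∩ B m).powerset, be (β + m) T) *
      ∏ i ∈ (Finset.range K).erase m, ∑ T ∈ (W ∩ B i).powerset, al (β + i) T := by
  unfold Lam
  rw [Finset.sum_sub_distrib]
  congr 1
  · exact sv1_pf hPF K B hB W hW (fun m T => al (β + m) T)
  · rw [Finset.sum_comm]
    refine Finset.sum_congr rfl fun m hm => ?_
    have h := sv1_pf hPF K B hB W hW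
      (fun i T => if i = m then be (β + m) T else al (β + i) T)
    rw [← Finset.mul_prod_erase (Finset.range K)
      (fun i => ∑ T ∈ (W ∩ B i).powerset, if i = m then be (β + m) T else al (β + i) T) hm] at h
    simp only [if_true] at h
    have h4 : ∏ x ∈ (Finset.range K).erase m,
        ∑ T ∈ (W ∩ B x).powerset, (if x = m then be (β + m) T else al (β + x) T) =
        ∏ i ∈ (Finset.range K).erase m, ∑ T ∈ (W ∩ B i).powerset, al (β + i) T := by
      refine Finset.prod_congr rfl fun i hi => ?_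
      refine Finset.sum_congr rfl fun T _ => ?_
      rw [if_neg (Finset.ne_of_mem_erase hi)]
    rw [h4] at h
    rw [← h]
    refine Finset.sum_congr rfl fun T _ => ?_
    rw [← Finset.mul_prod_erase (Finset.range K)
      (fun i => if i = m then be (β + m) (T ∩ B i) else al (β + i) (T ∩ B i)) hm]
    simp only [if_true]
    congr 1
    refine Finset.prod_congr rfl fun i hi => ?_
    rw [if_neg (Finset.ne_of_mem_erase hi)]

theorem st_SV1 (hPF : ST_PF) : ST_SV1 := by
  intro K B β hB W hW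
  rw [sv1_sum hPF K B β hB W hW]
  have hterm : ∀ m ∈ Finset.range K, 0 ≤ (∑ T ∈ (W ∩ B m).powerset, be (β + m) T) *
      ∏ i ∈ (Finset.range K).erase m, ∑ T ∈ (W ∩ B i).powerset, al (β + i) T := by
    intro m _
    exact mul_nonneg (sv1_be_nonneg _ _)
      (Finset.prod_nonneg fun i _ => sv1_al_nonneg _ _)
  by_cases hWe : W = ∅
  · rw [if_pos hWe]
    have h1 : ∏ m ∈ Finset.range K, ∑ T ∈ (W ∩ B m).powerset, al (β + m) T = 1 := by
      refine Finset.prod_eq_one fun m _ => ?_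
      rw [hWe, Finset.empty_inter, sv1_al_empty]
    rw [h1]
    linarith [Finset.sum_nonneg hterm]
  · rw [if_neg hWe]
    obtain ⟨x, hx⟩ := Finset.nonempty_iff_ne_empty.2 hWe
    have hx' := hW hx
    unfold un at hx'
    simp only [Finset.mem_biUnion] at hx'
    obtain ⟨m0, hm0, hxm⟩ := hx'
    have hne : (W ∩ B m0).Nonempty := ⟨x, Finset.mem_inter.2 ⟨hx, hxm⟩⟩
    have hb := sv1_block (β + m0) (W ∩ B m0) hne
    have hs := Finset.single_le_sum hterm hm0
    rw [← Finset.mul_prod_erase (Finset.range K)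
      (fun i => ∑ T ∈ (W ∩ B i).powerset, al (β + i) T) hm0]
    have hp : 0 ≤ ∏ i ∈ (Finset.range K).erase m0, ∑ T ∈ (W ∩ B i).powerset, al (β + i) T :=
      Finset.prod_nonneg fun i _ => sv1_al_nonneg _ _
    have := mul_le_mul_of_nonneg_right hb.2 hp
    linarith

end Pool.Agent.Helper37.DG
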